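import Pool.Agent.BER.Stmts

/-!
# Squad BER (MP_be01ff_an), row FST: the first approximation (proof: helper35)
-/

namespace Pool.Agent.BER.H35

open Set Filter Topology MeasureTheory
open scoped InnerProductSpace ENNReal
open Pool.Agent.BE01 Pool.Agent.BEL Pool.Agent.BEF Pool.Agent.BEN Pool.Agent.BEH Pool.Agent.BEG
open Pool.Agent.BER

noncomputable section

/-! ## Integrals -/

theorem int_odd (f : ℝ → ℝ) (h : ∀ x, f (2 * Real.pi - x) = - f x) :
    ∫ x in (0 : ℝ)..(2 * Real.pi), f x = 0 := by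
  have h1 := intervalIntegral.integral_comp_sub_left (a := 0) (b := 2 * Real.pi) f (2 * Real.pi)
  rw [sub_self, sub_zero] at h1
  have h2 : ∫ x in (0 : ℝ)..(2 * Real.pi), f (2 * Real.pi - x) =
      - ∫ x in (0 : ℝ)..(2 * Real.pi), f x := by
    rw [← intervalIntegral.integral_neg]
    exact intervalIntegral.integral_congr fun x _ => h x
  linarith

theorem int_cos (k : ℕ) (hk : k ≠ 0) : ∫ x in (0 : ℝ)..(2 * Real.pi), Real.cos (k * x) = 0 := by
  have hk' : (k : ℝ) ≠ 0 := Nat.cast_ne_zero.mpr hk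
  rw [intervalIntegral.integral_comp_mul_left (fun x => Real.cos x) hk', integral_cos]
  have h1 : Real.sin (k * (2 * Real.pi)) = 0 := by
    have e : (k : ℝ) * (2 * Real.pi) = ((2 * k : ℕ) : ℝ) * Real.pi := by
      push_cast
      ring
    rw [e, Real.sin_nat_mul_pi]
  rw [h1, mul_zero, Real.sin_zero, sub_zero, smul_zero]

theorem int_sin_sin (n : ℕ) (hn : 2 ≤ n) :
    ∫ x in (0 : ℝ)..(2 * Real.pi), Real.sin (n * x) * Real.sin x = 0 := by
  have h1 : ∀ x : ℝ, Real.sin (n * x) * Real.sin x =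
      (1 / 2) * Real.cos ((n - 1 : ℕ) * x) - (1 / 2) * Real.cos ((n + 1 : ℕ) * x) := by
    intro x
    have e1 : ((n - 1 : ℕ) : ℝ) * x = n * x - x := by
      rw [Nat.cast_sub (by omega)]
      push_cast
      ring
    have e2 : ((n + 1 : ℕ) : ℝ) * x = n * x + x := by
      push_cast
      ring
    rw [e1, e2, Real.cos_sub, Real.cos_add]
    ring
  simp only [h1]
  rw [intervalIntegral.integral_sub, intervalIntegral.integral_const_mul,
    intervalIntegral.integral_const_mul, int_cos _ (by omega), int_cos _ (by omega)]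
  · ring
  · exact (by fun_prop : Continuous fun x : ℝ =>
      (1 / 2) * Real.cos ((n - 1 : ℕ) * x)).intervalIntegrable _ _
  · exact (by fun_prop : Continuous fun x : ℝ =>
      (1 / 2) * Real.cos ((n + 1 : ℕ) * x)).intervalIntegrable _ _

theorem int_pow_pos (p : ℕ) : 0 < ∫ x in (0 : ℝ)..(2 * Real.pi), Real.sin x ^ (2 * p + 2) := by
  have hi : ∀ a b : ℝ, IntervalIntegrable (fun x => Real.sin x ^ (2 * p + 2)) volume a b :=
    fun a b => (by fun_prop : Continuous fun x : ℝ => Real.sin x ^ (2 * p + 2)).intervalIntegrable _ _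
  rw [← intervalIntegral.integral_add_adjacent_intervals (hi 0 Real.pi) (hi Real.pi _)]
  have h1 : 0 < ∫ x in (0 : ℝ)..Real.pi, Real.sin x ^ (2 * p + 2) := integral_sin_pow_pos _
  have h2 : 0 ≤ ∫ x in Real.pi..(2 * Real.pi), Real.sin x ^ (2 * p + 2) := by
    refine intervalIntegral.integral_nonneg (by linarith [Real.pi_pos]) fun x _ => ?_
    have : 2 * p + 2 = 2 * (p + 1) := by ring
    rw [this, pow_mul]
    positivity
  linarith

theorem int_sin_sq : ∫ x in (0 : ℝ)..(2 * Real.pi), Real.sin x * Real.sin x = Real.pi := by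
  have h1 : ∀ x : ℝ, Real.sin x * Real.sin x = Real.sin x ^ 2 := fun x => by ring
  simp only [h1]
  rw [integral_sin_sq]
  simp

/-! ## Computations with multiples of one vector -/

section
variable {X H : Type} [NormedCommRing X] [NormedAlgebra ℝ X] [NormedAddCommGroup H]
  [InnerProductSpace ℝ H]

theorem dt_U0 (p : ℕ) (ω ρ : ℝ) (χ : X) :
    Dt p ω (fun ψ _ _ => (ρ * Real.cos ψ) • χ) =
      fun ψ τ _ => (-(ω * ρ * Real.sin ψ) - τ * (ρ / (2 * p) * Real.cos ψ)) • χ := by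
  funext ψ τ L
  have h1 : q1 (fun ψ (_ _ : ℝ) => (ρ * Real.cos ψ) • χ) ψ τ L = (ρ * -Real.sin ψ) • χ := by
    unfold q1
    exact (((Real.hasDerivAt_cos ψ).const_mul ρ).smul_const χ).deriv
  have h2 : q2 (fun ψ (_ _ : ℝ) => (ρ * Real.cos ψ) • χ) ψ τ L = 0 := by
    unfold q2
    exact deriv_const _ _
  have h3 : q3 (fun ψ (_ _ : ℝ) => (ρ * Real.cos ψ) • χ) ψ τ L = 0 := by
    unfold q3
    exact deriv_const _ _
  unfold Dt
  rw [h1, h2, h3, smul_zero, sub_zero, zero_sub]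
  have h4 : ω • (ρ * -Real.sin ψ) • χ + τ • -((1 / (2 * (p : ℝ))) • (ρ * Real.cos ψ) • χ) =
      (ω * (ρ * -Real.sin ψ) + τ * -((1 / (2 * (p : ℝ))) * (ρ * Real.cos ψ))) • χ := by
    module
  rw [h4]
  congr 1
  ring

theorem dt_A1 (p : ℕ) (ω ρ : ℝ) (χ : X) :
    Dt p ω (fun ψ τ _ => (-(ω * ρ * Real.sin ψ) - τ * (ρ / (2 * p) * Real.cos ψ)) • χ) =
      fun ψ τ _ => (-(ω ^ 2 * ρ * Real.cos ψ) + τ * (ω * ρ / p * Real.sin ψ) +
        τ ^ 2 * (ρ * (1 / (2 * p) * (1 / (2 * p)) + 1 / (2 * p)) * Real.cos ψ)) • χ := by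
  funext ψ τ L
  have h1 : q1 (fun ψ τ (_ : ℝ) =>
      (-(ω * ρ * Real.sin ψ) - τ * (ρ / (2 * p) * Real.cos ψ)) • χ) ψ τ L =
      (-(ω * ρ * Real.cos ψ) - τ * (ρ / (2 * p) * -Real.sin ψ)) • χ := by
    unfold q1
    exact ((((Real.hasDerivAt_sin ψ).const_mul (ω * ρ)).neg.sub
      (((Real.hasDerivAt_cos ψ).const_mul (ρ / (2 * p))).const_mul τ)).smul_const χ).deriv
  have h2 : q2 (fun ψ τ (_ : ℝ) =>
      (-(ω * ρ * Real.sin ψ) - τ * (ρ / (2 * p) * Real.cos ψ)) • χ) ψ τ L =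
      (0 - 1 * (ρ / (2 * p) * Real.cos ψ)) • χ := by
    unfold q2
    exact (((hasDerivAt_const τ (-(ω * ρ * Real.sin ψ))).sub
      ((hasDerivAt_id τ).mul_const (ρ / (2 * p) * Real.cos ψ))).smul_const χ).deriv
  have h3 : q3 (fun ψ τ (_ : ℝ) =>
      (-(ω * ρ * Real.sin ψ) - τ * (ρ / (2 * p) * Real.cos ψ)) • χ) ψ τ L = 0 := by
    unfold q3
    exact deriv_const _ _
  unfold Dt
  rw [h1, h2, h3, zero_sub]
  have h4 : ω • (-(ω * ρ * Real.cos ψ) - τ * (ρ / (2 * p) * -Real.sin ψ)) • χ +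
      τ • (-((1 / (2 * (p : ℝ))) • (-(ω * ρ * Real.sin ψ) - τ * (ρ / (2 * p) * Real.cos ψ)) • χ) -
        τ • (0 - 1 * (ρ / (2 * p) * Real.cos ψ)) • χ) =
      (ω * (-(ω * ρ * Real.cos ψ) - τ * (ρ / (2 * p) * -Real.sin ψ)) +
        τ * (-((1 / (2 * (p : ℝ))) * (-(ω * ρ * Real.sin ψ) - τ * (ρ / (2 * p) * Real.cos ψ))) -
        τ * (0 - 1 * (ρ / (2 * p) * Real.cos ψ)))) • χ := by
    module
  rw [h4]
  congr 1
  have h5 : ω * ρ / p = 2 * (ω * ρ * (1 / (2 * p))) := by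
    rcases eq_or_ne (p : ℝ) 0 with h | h
    · rw [h]
      simp
    · field_simp
  have h6 : ρ / (2 * p) = ρ * (1 / (2 * (p : ℝ))) := by ring
  rw [h5, h6]
  ring

/-- Powers of a perturbation. -/
theorem pow_pert (lpm : LpmStmt) (P h : ℝ → ℝ → ℝ → X) (hP : P ∈ LP X 0 1) (hh : h ∈ LP X 1 1)
    (n : ℕ) : (fun ψ τ L => (P ψ τ L + h ψ τ L) ^ n - P ψ τ L ^ n) ∈ LP X 1 n := by
  have hinc := (lpm.1 X).1
  have hmul := (lpm.2 X).1
  have hpow := (lpm.2 X).2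
  induction n with
  | zero =>
    have h1 : (fun ψ τ L => (P ψ τ L + h ψ τ L) ^ 0 - P ψ τ L ^ 0) = (0 : ℝ → ℝ → ℝ → X) := by
      funext ψ τ L
      simp
    rw [h1]
    exact Submodule.zero_mem _
  | succ n ih =>
    have hPh : (fun ψ τ L => P ψ τ L + h ψ τ L) ∈ LP X 0 1 :=
      Submodule.add_mem _ hP (hinc 0 1 1 1 (by norm_num) rfl hh)
    have h1 := hmul 1 0 n 1 _ ih _ hPh
    have h2 := hmul (n * 0) 1 (n * 1) 1 _ (hpow 0 1 n P hP) _ hh
    have h3 : (fun ψ τ L => (P ψ τ L + h ψ τ L) ^ (n + 1) - P ψ τ L ^ (n + 1)) =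
        (fun ψ τ L => ((P ψ τ L + h ψ τ L) ^ n - P ψ τ L ^ n) * (P ψ τ L + h ψ τ L)) +
        fun ψ τ L => P ψ τ L ^ n * h ψ τ L := by
      funext ψ τ L
      simp only [Pi.add_apply]
      ring
    rw [h3]
    refine Submodule.add_mem _ h1 ?_
    have h4 : n * 0 + 1 = 1 := by ring
    have h5 : n * 1 + 1 = n + 1 := by ring
    rw [h4, h5] at h2
    exact h2

end

/-! ## The theorem -/

theorem fst (lpm : LpmStmt) (lpd : LpdStmt) (tlm : TlmStmt) (slv : SlvStmt) (per : PerStmt) :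
    FstStmt := by
  intro X H _ _ _ _ W p a0 ω m φ χ hp ha hω hF hC
  obtain ⟨hinc, hτ, hTLP, -, hTinc⟩ := lpm.1 X
  set γ : ℝ := ⟪W.e (χ ^ (2 * p + 1)), W.e χ⟫_ℝ with hγ
  have hγ0 : 0 < γ := hC.pos
  set Ip : ℝ := ∫ x in (0 : ℝ)..(2 * Real.pi), Real.sin x ^ (2 * p + 2) with hIp
  have hIp0 : 0 < Ip := int_pow_pos p
  have hp0 : (0 : ℝ) < p := by exact_mod_cast hp
  have hpi := Real.pi_pos
  -- the amplitude
  obtain ⟨σ, hσ, hσ2⟩ : ∃ σ : ℝ, 0 < σ ∧ σ ^ (2 * p) = Real.pi / (p * a0 * Ip * γ) := by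
    have h1 : 0 < Real.pi / (p * a0 * Ip * γ) := by positivity
    refine ⟨(Real.pi / (p * a0 * Ip * γ)) ^ (((2 * p : ℕ) : ℝ)⁻¹), Real.rpow_pos_of_pos h1 _, ?_⟩
    exact Real.rpow_inv_natCast_pow h1.le (by omega)
  set ρ : ℝ := σ / ω with hρ
  have hρ0 : 0 < ρ := by positivity
  have hσρ : ω * ρ = σ := by rw [hρ]; field_simp
  refine ⟨ρ, hρ0, ?_⟩
  -- the first terms
  set U0 : ℝ → ℝ → ℝ → X := fun ψ _ _ => (ρ * Real.cos ψ) • χ with hU0
  set q0 : ℝ → ℝ → ℝ → X := fun ψ _ _ => (ω ^ 2 * ρ * Real.cos ψ) • χ with hq0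
  set χ' : X := (ω * ρ) • χ with hχ'
  have hU0mem : U0 ∈ LP X 0 1 := by
    refine Submodule.subset_span ⟨0, 0, 1, false, ρ • χ, le_rfl, rfl, ?_⟩
    funext ψ τ L
    simp only [hU0, tg, cond_false, pow_zero, Nat.cast_one, one_mul, smul_smul]
    congr 1
    ring
  have hq0mem : q0 ∈ LP X 0 1 := by
    refine Submodule.subset_span ⟨0, 0, 1, false, (ω ^ 2 * ρ) • χ, le_rfl, rfl, ?_⟩
    funext ψ τ L
    simp only [hq0, tg, cond_false, pow_zero, Nat.cast_one, one_mul, smul_smul]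
    congr 1
    ring
  set B' : ℝ → ℝ → ℝ → X := fun ψ τ _ => (-(τ * (ρ / (2 * p) * Real.cos ψ))) • χ with hB'
  have hB'mem : B' ∈ LP X 1 1 := by
    refine Submodule.subset_span ⟨1, 0, 1, false, (-(ρ / (2 * p))) • χ, le_rfl, rfl, ?_⟩
    funext ψ τ L
    simp only [hB', tg, cond_false, pow_zero, pow_one, Nat.cast_one, one_mul, mul_one, smul_smul]
    congr 1
    ring
  set B : ℝ → ℝ → ℝ → X := fun ψ _ _ => - (Real.sin ψ • χ') with hB
  have hBmem : B ∈ LP X 0 1 := by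
    refine Submodule.subset_span ⟨0, 0, 1, true, -χ', le_rfl, rfl, ?_⟩
    funext ψ τ L
    simp only [hB, tg, cond_true, pow_zero, Nat.cast_one, one_mul, smul_neg]
  have hDU0 : ∀ ψ τ L, Dt p ω U0 ψ τ L = B ψ τ L + B' ψ τ L := by
    intro ψ τ L
    rw [hU0, dt_U0]
    simp only [hB, hB', hχ', smul_smul]
    module
  -- the function `Q`
  set Q : ℝ → ℝ → X := fun ψ _ => Real.sin ψ • ((ω * ρ / p) • χ) +
    Real.sin ψ ^ (2 * p + 1) • (-(a0 * σ ^ (2 * p + 1)) • χ ^ (2 * p + 1)) with hQ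
  have hQmem : Q ∈ TL X (2 * p + 1) :=
    Submodule.add_mem _ (hTinc 1 (2 * p + 1) (by omega) (((tlm X).2.2 _).1)) ((tlm X).2.1 p _)
  have hR0 : (fun ψ τ L => Rs p a0 ω U0 q0 ψ τ L - τ • Q ψ L) ∈ LP X 2 1 := by
    have h1 := pow_pert lpm B B' hBmem hB'mem (2 * p + 1)
    have h2 : (fun ψ τ L => (B ψ τ L + B' ψ τ L) ^ (2 * p + 1) - B ψ τ L ^ (2 * p + 1)) ∈
        LP X 1 1 := by
      have := hinc 1 1 (2 * p + 1) 1 le_rfl (by omega)
      exact this h1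
    have h3 := Submodule.smul_mem _ a0 (hτ 1 1 1 _ h2)
    have h4 : (fun ψ τ (_ : ℝ) => (τ ^ 2 * (ρ * (1 / (2 * p) * (1 / (2 * p)) + 1 / (2 * p)) *
        Real.cos ψ)) • χ) ∈ LP X 2 1 := by
      refine Submodule.subset_span ⟨2, 0, 1, false,
        (ρ * (1 / (2 * p) * (1 / (2 * p)) + 1 / (2 * p))) • χ, le_rfl, rfl, ?_⟩
      funext ψ τ L
      simp only [tg, cond_false, pow_zero, Nat.cast_one, one_mul, mul_one, smul_smul]
      congr 1
      ring
    have h5 : (fun ψ τ L => Rs p a0 ω U0 q0 ψ τ L - τ • Q ψ L) =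
        (a0 • fun ψ τ L => τ ^ 1 • ((B ψ τ L + B' ψ τ L) ^ (2 * p + 1) -
          B ψ τ L ^ (2 * p + 1))) +
        (fun ψ τ (_ : ℝ) => (τ ^ 2 * (ρ * (1 / (2 * p) * (1 / (2 * p)) + 1 / (2 * p)) *
          Real.cos ψ)) • χ) := by
      funext ψ τ L
      have e1 : Dt p ω (Dt p ω U0) ψ τ L = (-(ω ^ 2 * ρ * Real.cos ψ) +
          τ * (ω * ρ / p * Real.sin ψ) +
          τ ^ 2 * (ρ * (1 / (2 * p) * (1 / (2 * p)) + 1 / (2 * p)) * Real.cos ψ)) • χ := by
        rw [hU0, dt_U0, dt_A1]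
      have e2 : B ψ τ L ^ (2 * p + 1) =
          (-(Real.sin ψ ^ (2 * p + 1) * σ ^ (2 * p + 1))) • χ ^ (2 * p + 1) := by
        simp only [hB, hχ']
        rw [hσρ, smul_smul, ← neg_smul, smul_pow, Odd.neg_pow ⟨p, rfl⟩, mul_pow]
      simp only [Pi.add_apply, Pi.smul_apply]
      unfold Rs
      rw [e1, hDU0 ψ τ L, smul_sub, smul_sub, e2]
      simp only [hq0, hQ, smul_add, smul_smul, pow_one]
      module
    rw [h5]
    exact Submodule.add_mem _ h3 h4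
  -- solvability
  have hint : ∀ n ≤ 2 * p + 1, ∀ (i : Fin (m n)) (s : Bool) (L : ℝ),
      ∫ ψ in (0 : ℝ)..(2 * Real.pi), tg s n ψ * ⟪W.e (Q ψ L), W.e (φ n i)⟫_ℝ = 0 := by
    intro n hn i s L
    have e1 : ∀ ψ, ⟪W.e (Q ψ L), W.e (φ n i)⟫_ℝ =
        Real.sin ψ * (ω * ρ / p * ⟪W.e χ, W.e (φ n i)⟫_ℝ) +
        Real.sin ψ ^ (2 * p + 1) * (-(a0 * σ ^ (2 * p + 1)) *
          ⟪W.e (χ ^ (2 * p + 1)), W.e (φ n i)⟫_ℝ) := by
      intro ψ
      simp only [hQ]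
      rw [map_add, map_smul, map_smul, map_smul, map_smul, inner_add_left, real_inner_smul_left,
        real_inner_smul_left, real_inner_smul_left, real_inner_smul_left]
    have hodd : Odd n := by
      by_contra hno
      have := hF.evn n hno
      exact absurd i.2 (by omega)
    simp only [e1]
    cases s with
    | false =>
      refine int_odd _ fun ψ => ?_
      have e2 : Real.cos (n * (2 * Real.pi - ψ)) = Real.cos (n * ψ) := by
        have : (n : ℝ) * (2 * Real.pi - ψ) = n * (2 * Real.pi) - n * ψ := by ring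
        rw [this, Real.cos_nat_mul_two_pi_sub]
      have e3 : Real.sin (2 * Real.pi - ψ) = - Real.sin ψ := Real.sin_two_pi_sub ψ
      simp only [tg, cond_false]
      rw [e2, e3, Odd.neg_pow ⟨p, rfl⟩]
      ring
    | true =>
      simp only [tg, cond_true]
      have hi1 : IntervalIntegrable (fun ψ => Real.sin (n * ψ) * (Real.sin ψ *
          (ω * ρ / p * ⟪W.e χ, W.e (φ n i)⟫_ℝ))) volume 0 (2 * Real.pi) :=
        (by fun_prop : Continuous fun ψ : ℝ => Real.sin (n * ψ) * (Real.sin ψ *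
          (ω * ρ / p * ⟪W.e χ, W.e (φ n i)⟫_ℝ))).intervalIntegrable _ _
      have hi2 : IntervalIntegrable (fun ψ => Real.sin (n * ψ) * (Real.sin ψ ^ (2 * p + 1) *
          (-(a0 * σ ^ (2 * p + 1)) * ⟪W.e (χ ^ (2 * p + 1)), W.e (φ n i)⟫_ℝ))) volume 0
          (2 * Real.pi) :=
        (by fun_prop : Continuous fun ψ : ℝ => Real.sin (n * ψ) * (Real.sin ψ ^ (2 * p + 1) *
          (-(a0 * σ ^ (2 * p + 1)) *
            ⟪W.e (χ ^ (2 * p + 1)), W.e (φ n i)⟫_ℝ))).intervalIntegrable _ _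
      simp only [mul_add]
      rw [intervalIntegral.integral_add hi1 hi2]
      simp only [← mul_assoc]
      rw [intervalIntegral.integral_mul_const]
      rcases Nat.lt_or_ge n 3 with h3 | h3
      · have hn1 : n = 1 := by
          obtain ⟨k, hk⟩ := hodd
          omega
        subst hn1
        have e4 : ⟪W.e (χ ^ (2 * p + 1)), W.e (φ 1 i)⟫_ℝ = γ * ⟪W.e χ, W.e (φ 1 i)⟫_ℝ :=
          hC.one i
        have e5 : ∫ ψ in (0 : ℝ)..(2 * Real.pi), Real.sin ((1 : ℕ) * ψ) * Real.sin ψ *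
            (ω * ρ / p) = Real.pi * (ω * ρ / p) := by
          rw [intervalIntegral.integral_mul_const]
          simp only [Nat.cast_one, one_mul]
          rw [int_sin_sq]
        have e6 : ∫ ψ in (0 : ℝ)..(2 * Real.pi), Real.sin ((1 : ℕ) * ψ) *
            Real.sin ψ ^ (2 * p + 1) * -(a0 * σ ^ (2 * p + 1)) *
            ⟪W.e (χ ^ (2 * p + 1)), W.e (φ 1 i)⟫_ℝ =
            Ip * -(a0 * σ ^ (2 * p + 1)) * ⟪W.e (χ ^ (2 * p + 1)), W.e (φ 1 i)⟫_ℝ := by
          rw [intervalIntegral.integral_mul_const, intervalIntegral.integral_mul_const, hIp]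
          congr 2
          refine intervalIntegral.integral_congr fun ψ _ => ?_
          simp only [Nat.cast_one, one_mul]
          ring
        rw [e5, e6, e4, hσρ]
        have e7 : σ ^ (2 * p + 1) = σ * (Real.pi / (p * a0 * Ip * γ)) := by
          rw [pow_succ, hσ2]
          ring
        rw [e7]
        field_simp
        ring
      · have e8 : ∫ ψ in (0 : ℝ)..(2 * Real.pi), Real.sin (n * ψ) * Real.sin ψ *
            (ω * ρ / p) = 0 := by
          rw [intervalIntegral.integral_mul_const, int_sin_sin n (by omega), zero_mul]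
        rw [e8, hC.oth n h3 hn i]
        simp
  obtain ⟨qq, hqq, hqqeq⟩ := slv X H W ω m φ (2 * p + 1) hF Q hQmem hint
  -- the correction
  obtain ⟨-, -, -, hTL, -⟩ := lpd X X p ω
  set Wf : ℝ → ℝ → X := fun ψ L => W.SX (qq ψ L) with hWf
  have hd := hTL (2 * p + 1) qq hqq
  have hWfmem : Wf ∈ TL X (2 * p + 1) := (hd.2.2.2.1 W.SX).1
  have hd1Wf : d1 Wf = fun ψ L => W.SX (d1 qq ψ L) := (hd.2.2.2.1 W.SX).2.1
  have hd11Wf : d1 (d1 Wf) = fun ψ L => W.SX (d1 (d1 qq) ψ L) := by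
    rw [hd1Wf]
    exact ((hTL (2 * p + 1) (d1 qq) hd.1).2.2.2.1 W.SX).2.1
  have hper := per X p 0 (2 * p + 1) a0 ω χ' U0 q0 (fun _ _ => 0) (fun _ _ => 0) Wf qq hp
    (Or.inr rfl) hU0mem hq0mem ⟨B', hB'mem, hDU0⟩ (Submodule.zero_mem _) (Submodule.zero_mem _)
    hWfmem hqq
  refine ⟨fun ψ τ L => U0 ψ τ L + τ ^ 0 • (fun _ _ => 0 : ℝ → ℝ → X) ψ L + τ ^ (0 + 1) • Wf ψ L,
    fun ψ τ L => q0 ψ τ L + τ ^ 0 • (fun _ _ => 0 : ℝ → ℝ → X) ψ L + τ ^ (0 + 1) • qq ψ L,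
    ⟨?_, ?_, ?_⟩⟩
  · intro ψ τ L
    simp only [hU0, hq0, hWf, smul_zero, add_zero, map_add, map_smul]
    have e1 : (ω ^ 2 * ρ * Real.cos ψ) • W.SX χ = (ρ * Real.cos ψ) • ((ω ^ 2) • W.SX χ) := by
      rw [smul_smul]
      congr 1
      ring
    rw [e1, hC.ev]
  · refine ⟨fun ψ τ L => τ ^ (0 + 1) • qq ψ L, hTLP (2 * p + 1) (0 + 1) qq hqq, ?_⟩
    intro ψ τ L
    simp only [hq0, smul_zero, add_zero]
  · have h1 := Submodule.add_mem _ hper hR0
    have h2 : ∀ ψ L : ℝ, d1 (d1 (fun (_ _ : ℝ) => (0 : X))) ψ L = 0 := by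
      intro ψ L
      unfold d1
      simp
    have h3 : ∀ ψ L : ℝ, d1 (d2 (fun (_ _ : ℝ) => (0 : X))) ψ L = 0 := by
      intro ψ L
      unfold d1 d2
      simp
    have h4 : ∀ ψ L : ℝ, d1 (fun (_ _ : ℝ) => (0 : X)) ψ L = 0 := by
      intro ψ L
      unfold d1
      simp
    have h5 : ∀ f g : ℝ → ℝ → ℝ → X, f ∈ LP X 2 1 → f = g → g ∈ LP X 2 1 :=
      fun f g hf h => h ▸ hf
    refine h5 _ _ h1 ?_
    funext ψ τ L
    have e1 := hqqeq ψ L
    have e2 : (ω ^ 2) • d1 (d1 Wf) ψ L + qq ψ L = - Q ψ L := by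
      rw [hd11Wf]
      exact e1
    simp only [Pi.add_apply]
    rw [h2, h3, h4]
    simp only [smul_zero, mul_zero, sub_zero, add_zero, zero_add, pow_one]
    rw [e2, smul_neg]
    abel

end

end Pool.Agent.BER.H35
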